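import Pool.Agent.Q151.Zig.Cont

/-!
# MP_5069ae_gt: continua in `ℝ^n`, `n ≥ 3`, without short excursions
-/

set_option autoImplicit false

namespace Pool.Agent.Results.MP_5069ae_gt.LongExcursions

open Pool.Agent.Q151.Zig Set

/-- For every `n ≥ 3` there are a compact connected `K ⊆ ℝ^n`, points `p, q ∈ K` and `ε > 0` such
that every curve `γ` from `p` to `q` has `length (γ ∖ K) ≥ ε`. -/
theorem result : ∀ n : ℕ, 3 ≤ n → ∃ K : Set (EuclideanSpace ℝ (Fin n)),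
    IsCompact K ∧ IsConnected K ∧ ∃ p ∈ K, ∃ q ∈ K, ∃ ε : ℝ, 0 < ε ∧
      ∀ γ : ℝ → EuclideanSpace ℝ (Fin n), ContinuousOn γ (Icc 0 1) → γ 0 = p → γ 1 = q →
        ENNReal.ofReal ε ≤ lengthOutside γ K := by
  intro n hn
  obtain ⟨m, rfl⟩ : ∃ m, n = m + 3 := ⟨n - 3, by omega⟩
  obtain ⟨K, h1, h2, p, hp, q, hq, h3⟩ := zigzag m
  exact ⟨K, h1, h2, p, hp, q, hq, 1 / 100, by norm_num, h3⟩

end Pool.Agent.Results.MP_5069ae_gt.LongExcursions
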